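import Pool.Agent.helper70.FI.SpecQ1

set_option autoImplicit false

namespace Pool.Agent.FI

open Pool.Agent.helper58.DC Pool.Agent.DI Pool.Agent.GR Pool.Agent.OB

theorem QCE_const {G : Type} [Group G] [Finite G] (K : Subgroup G) (c : ℂ) :
    ∑ᶠ t ∈ (K : Set G), (fun _ : G => c) t = (Nat.card K : ℂ) * c := by
  rw [finsum_mem_eq_finite_toFinset_sum _ (Set.toFinite (K : Set G)), Finset.sum_const, nsmul_eq_mul,
    ← Set.ncard_eq_toFinset_card]
  rfl

theorem QCE (hSCH : SCH_stmt) (hCHC : CHC_stmt) (hB2 : B2_stmt) (hC3 : C3_stmt) : QCE_stmt := by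
  classical
  intro G _ _ K u hu hcen ψ hψ
  obtain ⟨⟨d, hd0, hd, _⟩, hcl, _, _, _⟩ := (hB2 G K).2 ψ hψ
  have hK : (Nat.card K : ℂ) ≠ 0 := by
    have := Nat.card_pos (α := K)
    exact_mod_cast this.ne'
  have h1 : ∀ v, ψ (u * v) * ψ 1 = ψ u * ψ v := by
    intro v
    have h := hSCH G K ψ hψ u hu v
    have e : ∑ᶠ t ∈ (K : Set G), ψ (u * (t * v * t⁻¹)) = ∑ᶠ t ∈ (K : Set G), (fun _ : G => ψ (u * v)) t := by
      refine finsum_mem_congr rfl fun t ht => ?_
      have e1 : u * (t * v * t⁻¹) = t * (u * v) * t⁻¹ := by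
        calc u * (t * v * t⁻¹) = (u * t) * v * t⁻¹ := by group
          _ = (t * u) * v * t⁻¹ := by rw [hcen t ht]
          _ = t * (u * v) * t⁻¹ := by group
      rw [e1]
      exact hcl _ t ht
    rw [e, QCE_const] at h
    apply mul_left_cancel₀ hK
    linear_combination h
  refine ⟨h1, ?_, ?_⟩
  · have h := h1 u⁻¹
    rw [mul_inv_cancel] at h
    rw [hCHC G K ψ hψ u, ← h]
    ring
  · have h := (hC3 G).1 K ψ hψ (fun x => if x = u then 1 else 0) (by
      intro l hl x
      have e : l * x * l⁻¹ = u ↔ x = u := by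
        constructor
        · intro h
          have h2 : x = l⁻¹ * u * l := by rw [← h]; group
          rw [h2, mul_assoc, ← hcen l hl]
          group
        · intro h
          rw [h, hcen l hl]
          group
      by_cases hx : x = u
      · change (if l * x * l⁻¹ = u then (1 : ℂ) else 0) = if x = u then 1 else 0
        rw [if_pos hx, if_pos (e.2 hx)]
      · change (if l * x * l⁻¹ = u then (1 : ℂ) else 0) = if x = u then 1 else 0
        rw [if_neg hx, if_neg (fun h => hx (e.1 h))]) (by
      intro x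
      split_ifs
      · exact isIntegral_one
      · exact isIntegral_zero)
    have e : cc ψ (fun x => if x = u then 1 else 0) = ψ u / ψ 1 := by
      unfold cc
      congr 1
      rw [finsum_eq_single _ u]
      · simp
      · intro x hx
        simp [hx]
    rwa [e] at h

end Pool.Agent.FI
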